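import Pool.Agent.SGL.StmtsA

/-!
# Squad SGL, row AUG: the augmentation
-/

set_option autoImplicit false

namespace Pool.Agent.SGL.H3

open Pool.Agent.SGE Pool.Agent.SGP Pool.Agent.SGY Pool.Agent.SGD Pool.Agent.SGL

theorem aug (qpm : QpmStmt) (rch : RchStmt) : AugStmt := by
  intro V _ G R a E₀ Φ₀ hG ha h0
  classical
  have hS : ∃ n : ℕ, ∃ (E : V → V → Prop) (Φ : V → V → V → Prop),
      Okk G R a E Φ ∧ (Bd a E Φ).card = n := ⟨_, E₀, Φ₀, h0, rfl⟩
  obtain ⟨E, Φ, h1, h2⟩ := Nat.find_spec hS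
  have hm : Mnn G R a E Φ := by
    refine ⟨h1, fun E' Φ' h' => ?_⟩
    rw [h2]
    exact Nat.find_min' hS ⟨E', Φ', h', rfl⟩
  refine ⟨E, Φ, h1, fun p q r hn => ?_⟩
  by_contra hc
  have hp : a ≠ p := fun h => hc (Or.inl h)
  have hq : a ≠ q := fun h => hc (Or.inr (Or.inl h))
  have hr : a ≠ r := fun h => hc (Or.inr (Or.inr h))
  have key : ∀ p q r, NF E Φ p q r → a ≠ p → a ≠ q → a ≠ r → ¬ G p q → False := by
    intro p q r hn hp hq hr hG'
    exact rch h1.sph (qpm hG hm hr) hr ((h1.rel a).2 ha) p q ⟨hn, hG', hp, hq⟩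
  by_cases g1 : G p q
  · by_cases g2 : G q r
    · by_cases g3 : G r p
      · exact hc (h1.tri p q r hn g1 g2 g3)
      · exact key r p q (NF.rt h1.sph (NF.rt h1.sph hn)) hr hp hq g3
    · exact key q r p (NF.rt h1.sph hn) hq hr hp g2
  · exact key p q r hn hp hq hr g1

end Pool.Agent.SGL.H3
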